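import Mathlib

set_option autoImplicit false

/-!
# MP_f496b1_nt: the chain of congruences fails for the prime `p = 17`

For `p = 17` one has `4 p = 17 x^2 + 3 y^2` with `x = 2`, `y = 0`, so the second case of the question applies. Modulo
`17^2` the three members of the chain are pairwise incongruent.
-/

namespace Pool.Agent.Results.MP_f496b1_nt.FailsAtSeventeen

open Finset

/-- The generalized binomial coefficient `a (a-1) ... (a-k+1) / k!` of a rational number `a`. -/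
def gbin (a : ℚ) (k : ℕ) : ℚ := (∏ i ∈ range k, (a - i)) / (k.factorial : ℚ)

/-- `S_1(p) = ∑_{k=0}^{p-1} C(-1/3,k) C(-1/6,k) / (-16)^k`. -/
def S1 (p : ℕ) : ℚ := ∑ k ∈ range p, gbin (-1 / 3) k * gbin (-1 / 6) k / (-16) ^ k

/-- `S_2(p) = ∑_{k=0}^{p-1} C(-2/3,k) C(-5/6,k) / (-16)^k`. -/
def S2 (p : ℕ) : ℚ := ∑ k ∈ range p, gbin (-2 / 3) k * gbin (-5 / 6) k / (-16) ^ k

/-- `ε_p = 1` if `p ≡ 1 (mod 3)` and `ε_p = 17/16` otherwise. -/
def eps (p : ℕ) : ℚ := if p % 3 = 1 then 1 else 17 / 16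

/-- Two rationals are congruent modulo `p^m` when their difference is `p^m` times a rational
number with denominator prime to `p`. -/
def Cong (p m : ℕ) (x y : ℚ) : Prop := ¬ p ∣ ((x - y) / (p : ℚ) ^ m).den

/-- The middle member `(17/p) ε_p S_2(p)` of the chain. -/
def middle (p : ℕ) : ℚ := (jacobiSym 17 p : ℚ) * eps p * S2 p

/-- First case: `4p = x^2 + 51 y^2`. -/
def CaseA (p : ℕ) : Prop := ∀ x y : ℤ, 4 * (p : ℤ) = x ^ 2 + 51 * y ^ 2 →
  Cong p 2 (S1 p) (middle p) ∧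
    Cong p 2 (middle p) (-(jacobiSym x 3 : ℚ) * ((x : ℚ) - p / x))

/-- Second case: `4p = 17 x^2 + 3 y^2`. -/
def CaseB (p : ℕ) : Prop := ∀ x y : ℤ, 4 * (p : ℤ) = 17 * x ^ 2 + 3 * y ^ 2 →
  Cong p 2 (S1 p) (middle p) ∧
    Cong p 2 (middle p) (1 / 4 * (jacobiSym x 3 : ℚ) * (17 * (x : ℚ) - p / x))

/-- Third case: `(p/3) = 1` and `(p/17) = -1`. -/
def CaseC (p : ℕ) : Prop := jacobiSym p 3 = 1 → jacobiSym p 17 = -1 →
  Cong p 1 (S1 p) (middle p) ∧ Cong p 1 (middle p) 0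

theorem jac17 : jacobiSym 17 17 = 0 := by
  have h : jacobiSym ((17 : ℤ)) 17 = jacobiSym 0 17 := by
    rw [jacobiSym.mod_left]; norm_num
  rw [h, jacobiSym.zero_left (by norm_num)]

theorem mid17 : middle 17 = 0 := by
  unfold middle
  norm_num [jac17]

theorem jac2 : jacobiSym 2 3 = -1 := by
  norm_num

theorem first17 : ¬ Cong 17 2 (S1 17) 0 := by
  unfold Cong S1 gbin
  simp only [sum_range_succ, sum_range_zero, prod_range_succ, prod_range_zero, Nat.factorial]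
  norm_num

theorem second17 : ¬ Cong 17 2 0 (1 / 4 * (jacobiSym 2 3 : ℚ) * (17 * ((2 : ℤ) : ℚ) - (17 : ℕ) / ((2 : ℤ) : ℚ))) := by
  unfold Cong
  rw [jac2]
  norm_num

theorem third17 : ¬ Cong 17 2 (S1 17)
    (1 / 4 * (jacobiSym 2 3 : ℚ) * (17 * ((2 : ℤ) : ℚ) - (17 : ℕ) / ((2 : ℤ) : ℚ))) := by
  unfold Cong S1 gbin
  rw [jac2]
  simp only [sum_range_succ, sum_range_zero, prod_range_succ, prod_range_zero, Nat.factorial]
  norm_num

/-- Q1 is false: the second case fails for `p = 17`, where `4 * 17 = 17 * 2^2 + 3 * 0^2`. For this prime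
neither `S_1` and the middle member nor the middle member and the right-hand side nor `S_1` and
the right-hand side are congruent modulo `17^2`. -/
theorem result :
    ¬ (∀ p : ℕ, p.Prime → 3 < p → CaseA p ∧ CaseB p ∧ CaseC p) ∧
    (4 * ((17 : ℕ) : ℤ) = 17 * 2 ^ 2 + 3 * 0 ^ 2 ∧
      ¬ Cong 17 2 (S1 17) (middle 17) ∧
      ¬ Cong 17 2 (middle 17)
        (1 / 4 * (jacobiSym 2 3 : ℚ) * (17 * ((2 : ℤ) : ℚ) - (17 : ℕ) / ((2 : ℤ) : ℚ))) ∧
      ¬ Cong 17 2 (S1 17)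
        (1 / 4 * (jacobiSym 2 3 : ℚ) * (17 * ((2 : ℤ) : ℚ) - (17 : ℕ) / ((2 : ℤ) : ℚ)))) := by
  refine ⟨fun h => ?_, by norm_num, ?_, ?_, third17⟩
  · have h1 := ((h 17 (by norm_num) (by norm_num)).2.1 2 0 (by norm_num)).1
    rw [mid17] at h1
    exact first17 h1
  · rw [mid17]; exact first17
  · rw [mid17]; exact second17

end Pool.Agent.Results.MP_f496b1_nt.FailsAtSeventeen
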